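import Pool.Agent.W425.ND.Stm
import Pool.Agent.W372.SG.G1

set_option autoImplicit false

/-! Project ND, part DESC: descent from power series to polynomials in the coefficients. -/

namespace Pool.Agent.W494.ND

open MvPolynomial Pool.Agent.W425.ND Pool.Agent.W372.SG

variable {N : ℕ}

theorem brk_map {R R' : Type} [CommRing R] [CommRing R'] (κ : R →+* R')
    (f p : MvPolynomial (Fin N) R) (m s : ℕ) (e : Fin N →₀ ℕ) :
    brk (map κ f) (map κ p) m s e = κ (brk f p m s e) := by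
  unfold brk
  rw [← coeff_map, map_mul, map_mul, map_pow, map_natCast]

theorem ev_map {R R' : Type} [CommRing R] [CommRing R'] (κ : R →+* R') (s : ℕ) (e : Fin N →₀ ℕ)
    (o : Option (Fin N)) : (ev s e o : R') = κ (ev s e o) := by
  rcases o with _ | i
  · show ((s : ℕ) : R') = κ ((s : ℕ) : R)
    rw [map_natCast]
  · show ((e i : ℕ) : R') = κ ((e i : ℕ) : R)
    rw [map_natCast]

section

variable {S R K L : Type} [CommRing S] [CommRing R] [Field K] [Field L]
  (κ : S →+* R) (ι : S →+* K) (ιL : R →+* L) (ψ : K →+* L) (π : L →+ K)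

theorem low_pi (hψ : ∀ x, ψ (ι x) = ιL (κ x)) (hπ : ∀ x y, π (ψ x * y) = x * π y)
    (δ : Fin N → ℤ) (P : MvPolynomial (Option (Fin N)) R) (u : Fn N S) (u' : Fn N R)
    (hu : ∀ s e, u' s e = κ (u s e)) (s : ℕ) (e : Fin N →₀ ℕ) :
    π (ιL (low δ (P • u') s e)) = if ∀ i, 0 ≤ (e i : ℤ) + δ i then
      ι ((∏ i, ((e i : ℤ) + δ i).toNat.descFactorial (δ i).toNat : ℕ) : S) *
        (eval (fun o => ι (ev s (tr δ e) o)) (pm π (map ιL P)) * ι (u s (tr δ e))) else 0 := by
  unfold low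
  split_ifs with h
  · rw [Pool.Agent.W425.ND.smul_apply, hu, map_mul ιL, map_mul ιL, ← hψ]
    have h1 : ιL ((∏ i, ((e i : ℤ) + δ i).toNat.descFactorial (δ i).toNat : ℕ) : R) =
        ψ (ι ((∏ i, ((e i : ℤ) + δ i).toNat.descFactorial (δ i).toNat : ℕ) : S)) := by
      rw [map_natCast, map_natCast, map_natCast]
    have h2 : ιL (eval (ev s (tr δ e)) P) =
        eval (fun o => ψ (ι (ev s (tr δ e) o))) (map ιL P) := by
      rw [eval_map]
      have h3 : (fun o => ψ (ι (ev s (tr δ e) o))) = fun o => ιL (ev s (tr δ e) o) := by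
        funext o
        rw [hψ, ← ev_map κ]
      rw [h3]
      exact (eval₂_comp ιL _ _)
    rw [h1, h2, hπ, mul_comm (eval _ _) (ψ _), hπ, ← eval_pm ψ π hπ]
    ring
  · rw [map_zero, map_zero]

theorem low_iota (δ : Fin N → ℤ) (q : MvPolynomial (Option (Fin N)) S) (p : MvPolynomial (Option (Fin N)) K)
    (d : S) (hq : map ι q = C (ι d) * p) (u : Fn N S) (s : ℕ) (e : Fin N →₀ ℕ) :
    ι (low δ (q • u) s e) = ι d * if ∀ i, 0 ≤ (e i : ℤ) + δ i then
      ι ((∏ i, ((e i : ℤ) + δ i).toNat.descFactorial (δ i).toNat : ℕ) : S) *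
        (eval (fun o => ι (ev s (tr δ e) o)) p * ι (u s (tr δ e))) else 0 := by
  unfold low
  split_ifs with h
  · rw [Pool.Agent.W425.ND.smul_apply, map_mul ι, map_mul ι]
    have h2 : ι (eval (ev s (tr δ e)) q) = eval (fun o => ι (ev s (tr δ e) o)) (map ι q) := by
      rw [eval_map]
      exact (eval₂_comp ι _ _)
    rw [h2, hq, map_mul, eval_C]
    ring
  · rw [map_zero, mul_zero]

end

/-- **DESC** -/
theorem taskDESC : TaskDESC := by
  classical
  intro r N loc v a' B ha hrel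
  obtain ⟨L0, n, n0, δ, c, m, P, δ0, c0, m0, P0, hc, hc0, hδ0, hfe⟩ := hrel
  -- rings
  let S := MvPolynomial (Fin r) ℂ
  let K := FractionRing (MvPolynomial (Fin r) ℂ)
  let LL := FractionRing (PowerSeries ℂ)
  let ι : MvPolynomial (Fin r) ℂ →+* K := algebraMap _ K
  have hι : Function.Injective ι := IsFractionRing.injective _ K
  let ιL : PowerSeries ℂ →+* LL := algebraMap _ LL
  have hιL : Function.Injective ιL := IsFractionRing.injective _ LL
  let κ : MvPolynomial (Fin r) ℂ →+* PowerSeries ℂ :=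
    (aeval a' : MvPolynomial (Fin r) ℂ →ₐ[ℂ] PowerSeries ℂ).toRingHom
  have hκ : Function.Injective κ := ha
  have hφ : Function.Injective (ιL.comp κ) := hιL.comp hκ
  let ψ : K →+* LL := IsFractionRing.lift hφ
  have hψ : ∀ x, ψ (ι x) = ιL (κ x) := fun x => IsFractionRing.lift_algebraMap hφ x
  obtain ⟨π, hπ, hπ1⟩ := retr ψ
  -- `f`
  set fX : MvPolynomial (Fin N) (MvPolynomial (Fin r) ℂ) := spa v X with hfX
  have hf : spa v a' = map κ fX := by
    rw [hfX]
    unfold spa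
    rw [map_sum]
    refine Finset.sum_congr rfl fun j _ => ?_
    rw [map_mul, map_C, map_prod]
    congr 1
    · congr 1
      exact (aeval_X a' j).symm
    · refine Finset.prod_congr rfl fun i _ => ?_
      rw [map_pow, map_X]
  have hbr : ∀ (c : Fin N →₀ ℕ) (m : ℕ) (s : ℕ) (e : Fin N →₀ ℕ),
      brk (spa v a') (monomial c 1) m s e = κ (brk fX (monomial c 1) m s e) := by
    intro c m s e
    rw [← brk_map κ, ← hf]
    congr 1
    rw [map_monomial, map_one κ]
  have hB : ∀ s : ℕ, algebraMap ℂ (PowerSeries ℂ) (B.eval (s : ℂ)) =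
      κ (algebraMap ℂ (MvPolynomial (Fin r) ℂ) (B.eval (s : ℂ))) := by
    intro s
    exact ((aeval a' : MvPolynomial (Fin r) ℂ →ₐ[ℂ] PowerSeries ℂ).commutes _).symm
  -- denominators
  obtain ⟨d, q, hd, hq⟩ := clear_den (R := MvPolynomial (Fin r) ℂ) (K := K)
    (Finset.univ : Finset (Fin n ⊕ Fin n0))
    (fun o => pm π (map ιL (Sum.elim P P0 o)))
  refine ⟨d, hd, L0, n, n0, δ, c, m, fun k => q (Sum.inl k), δ0, c0, m0, fun k => q (Sum.inr k),
    hc, hc0, hδ0, ?_⟩
  intro s hs e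
  have h1 := hfe s hs e
  rw [mul_one, hf] at h1
  rw [← map_pow, coeff_map, ← hf, hB] at h1
  have h2 := congrArg π (congrArg ιL h1)
  rw [map_mul ιL, ← hψ, ← hψ, ← mul_one (ψ (ι (coeff e (fX ^ s)))), hπ, hπ, hπ1, mul_one,
    map_add ιL, map_add π, map_sum ιL, map_sum ιL, map_sum π, map_sum π] at h2
  apply hι
  rw [map_add, map_sum, map_sum]
  have h3 : ι (algebraMap ℂ (MvPolynomial (Fin r) ℂ) (B.eval (s : ℂ)) * d * coeff e (fX ^ s)) =
      ι d * (ι (algebraMap ℂ (MvPolynomial (Fin r) ℂ) (B.eval (s : ℂ))) *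
        ι (coeff e (fX ^ s))) := by
    rw [map_mul, map_mul]; ring
  rw [h3, h2, mul_add, Finset.mul_sum, Finset.mul_sum]
  congr 1
  · refine Finset.sum_congr rfl fun k _ => ?_
    rw [low_pi κ ι ιL ψ π hψ hπ (δ k) (P k) (sh 1 (brk fX (monomial (c k) 1) (m k)))
      (sh 1 (brk (spa v a') (monomial (c k) 1) (m k))) (fun s e => hbr _ _ _ _) s e,
      low_iota ι (δ k) (q (Sum.inl k)) (pm π (map ιL (P k))) d
        (hq (Sum.inl k) (Finset.mem_univ _)) _ s e]
  · refine Finset.sum_congr rfl fun k _ => ?_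
    rw [low_pi κ ι ιL ψ π hψ hπ (δ0 k) (P0 k) (brk fX (monomial (c0 k) 1) (m0 k))
      (brk (spa v a') (monomial (c0 k) 1) (m0 k)) (fun s e => hbr _ _ _ _) s e,
      low_iota ι (δ0 k) (q (Sum.inr k)) (pm π (map ιL (P0 k))) d
        (hq (Sum.inr k) (Finset.mem_univ _)) _ s e]

end Pool.Agent.W494.ND
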